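import Mathlib

/-!
# MP_b03ea0_co: the cographs whose Maker-Breaker domination numbers are equal to the domination number

`G` is a finite cograph. A vertex is central if it is adjacent to all other vertices of its component; it is
lonely if it is the only central vertex of its component.

Theorem. `γ_MB'(G) = γ(G)` if and only if there is no lonely vertex (no component has exactly one central vertex),
and `γ_MB(G) = γ(G)` if and only if there is at most one lonely vertex. For all finite graphs with `m` lonely vertices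
`γ_MB(G) ≥ γ(G) + ⌊m / 2⌋` and `γ_MB'(G) ≥ γ(G) + ⌈m / 2⌉`.

Proof. A component with two central vertices needs one move of Dominator, and he has two ways to do it. A component
without central vertices is a join of two sets with at least two vertices each: Dominator answers the first move
of Staller in the same part, and after that he needs one more move, with two ways to do it. Conversely, if Staller
gets a lonely vertex, the vertices of Dominator form a dominating set without this vertex, which is not minimal.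
-/

set_option autoImplicit false

open Classical

namespace Pool.Agent.Results.MP_b03ea0_co.MinimalForCographs

variable {V : Type} [Fintype V]

/-- `D` is a dominating set -/
def Dom (G : SimpleGraph V) (D : Finset V) : Prop := ∀ x, ∃ v ∈ D, v = x ∨ G.Adj v x

/-- the domination number -/
noncomputable def gam (G : SimpleGraph V) : ℕ := sInf {n | ∃ D : Finset V, D.card = n ∧ Dom G D}

/-- Staller is to move, `D` and `S` are the sets of the vertices picked so far, and Dominator can make his set
dominating within at most `k` further moves of his own. -/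
def SWin (G : SimpleGraph V) : ℕ → Finset V → Finset V → Prop
  | 0, D, _ => Dom G D
  | k + 1, D, S => Dom G D ∨ ((∃ w, w ∉ D ∧ w ∉ S) ∧ ∀ w, w ∉ D → w ∉ S →
      ∃ v, v ∉ D ∧ v ∉ insert w S ∧ SWin G k (insert v D) (insert w S))

/-- The same, Dominator is to move. -/
def DWin (G : SimpleGraph V) (k : ℕ) (D S : Finset V) : Prop :=
  Dom G D ∨ ∃ j v, k = j + 1 ∧ v ∉ D ∧ v ∉ S ∧ SWin G j (insert v D) S

/-- `γ_MB` (Dominator moves first) -/
noncomputable def gMB (G : SimpleGraph V) : ℕ∞ := sInf {x | ∃ k : ℕ, x = k ∧ DWin G k ∅ ∅}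

/-- `γ_MB'` (Staller moves first) -/
noncomputable def gMB' (G : SimpleGraph V) : ℕ∞ := sInf {x | ∃ k : ℕ, x = k ∧ SWin G k ∅ ∅}

/-- the vertex sets which are obtained from single vertices by disjoint unions and joins -/
inductive Cog (G : SimpleGraph V) : Finset V → Prop
  | single (v : V) : Cog G {v}
  | union (P Q : Finset V) : Cog G P → Cog G Q → Disjoint P Q →
      (∀ p ∈ P, ∀ q ∈ Q, ¬ G.Adj p q) → Cog G (P ∪ Q)
  | join (P Q : Finset V) : Cog G P → Cog G Q → Disjoint P Q →
      (∀ p ∈ P, ∀ q ∈ Q, G.Adj p q) → Cog G (P ∪ Q)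

/-- `G` is a cograph -/
def IsCograph (G : SimpleGraph V) : Prop := Cog G Finset.univ

/-- `v` is adjacent to all other vertices of its component -/
def Central (G : SimpleGraph V) (v : V) : Prop := ∀ x, G.Reachable v x → v = x ∨ G.Adj v x

/-- `v` is the only central vertex of its component -/
def Lonely (G : SimpleGraph V) (v : V) : Prop :=
  Central G v ∧ ∀ u, G.Reachable v u → Central G u → u = v

variable {G : SimpleGraph V}

lemma Cog.nonempty {T : Finset V} (h : Cog G T) : T.Nonempty := by
  induction h with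
  | single v => exact Finset.singleton_nonempty v
  | union P Q _ _ _ _ ih _ => exact ih.mono Finset.subset_union_left
  | join P Q _ _ _ _ ih _ => exact ih.mono Finset.subset_union_left

lemma Cog.sub {T : Finset V} (h : Cog G T) : ∀ T' ⊆ T, T'.Nonempty → Cog G T' := by
  induction h with
  | single v =>
    intro T' h1 h2
    rw [Finset.Nonempty.subset_singleton_iff h2] at h1
    rw [h1]
    exact Cog.single v
  | union P Q _ _ hd ha ih1 ih2 =>
    intro T' h1 h2
    have he : T' = (T' ∩ P) ∪ (T' ∩ Q) := by
      rw [← Finset.inter_union_distrib_left]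
      exact (Finset.inter_eq_left.2 h1).symm
    by_cases hP : (T' ∩ P).Nonempty
    · by_cases hQ : (T' ∩ Q).Nonempty
      · rw [he]
        exact Cog.union _ _ (ih1 _ Finset.inter_subset_right hP) (ih2 _ Finset.inter_subset_right hQ)
          (hd.mono Finset.inter_subset_right Finset.inter_subset_right)
          (fun p hp q hq => ha p (Finset.mem_inter.1 hp).2 q (Finset.mem_inter.1 hq).2)
      · rw [Finset.not_nonempty_iff_eq_empty] at hQ
        rw [hQ, Finset.union_empty] at he
        rw [he]
        exact ih1 _ Finset.inter_subset_right hP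
    · rw [Finset.not_nonempty_iff_eq_empty] at hP
      rw [hP, Finset.empty_union] at he
      rw [he] at h2 ⊢
      exact ih2 _ Finset.inter_subset_right h2
  | join P Q _ _ hd ha ih1 ih2 =>
    intro T' h1 h2
    have he : T' = (T' ∩ P) ∪ (T' ∩ Q) := by
      rw [← Finset.inter_union_distrib_left]
      exact (Finset.inter_eq_left.2 h1).symm
    by_cases hP : (T' ∩ P).Nonempty
    · by_cases hQ : (T' ∩ Q).Nonempty
      · rw [he]
        exact Cog.join _ _ (ih1 _ Finset.inter_subset_right hP) (ih2 _ Finset.inter_subset_right hQ)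
          (hd.mono Finset.inter_subset_right Finset.inter_subset_right)
          (fun p hp q hq => ha p (Finset.mem_inter.1 hp).2 q (Finset.mem_inter.1 hq).2)
      · rw [Finset.not_nonempty_iff_eq_empty] at hQ
        rw [hQ, Finset.union_empty] at he
        rw [he]
        exact ih1 _ Finset.inter_subset_right hP
    · rw [Finset.not_nonempty_iff_eq_empty] at hP
      rw [hP, Finset.empty_union] at he
      rw [he] at h2 ⊢
      exact ih2 _ Finset.inter_subset_right h2

/-- a component of a cograph with at least two vertices is a join -/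
lemma comp_join (hG : IsCograph G) (c : G.ConnectedComponent) (x y : V)
    (hx : G.connectedComponentMk x = c) (hy : G.connectedComponentMk y = c) (hxy : x ≠ y) :
    ∃ P Q : Finset V, P.Nonempty ∧ Q.Nonempty ∧ Disjoint P Q ∧
      (∀ z, G.connectedComponentMk z = c ↔ z ∈ P ∨ z ∈ Q) ∧ ∀ p ∈ P, ∀ q ∈ Q, G.Adj p q := by
  have h := Cog.sub hG (Finset.univ.filter fun z => G.connectedComponentMk z = c)
    (Finset.subset_univ _) ⟨x, by simp [hx]⟩
  have hmem : ∀ z, z ∈ (Finset.univ.filter fun z => G.connectedComponentMk z = c) ↔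
      G.connectedComponentMk z = c := by simp
  generalize hT : (Finset.univ.filter fun z => G.connectedComponentMk z = c) = T at h hmem
  cases h with
  | single v =>
    have h1 := (hmem x).2 hx
    have h2 := (hmem y).2 hy
    rw [Finset.mem_singleton] at h1 h2
    exact absurd (h1.trans h2.symm) hxy
  | union P Q hP hQ hd ha =>
    exfalso
    obtain ⟨p, hp⟩ := hP.nonempty
    obtain ⟨q, hq⟩ := hQ.nonempty
    have hpc := (hmem p).1 (Finset.mem_union_left _ hp)
    have hqc := (hmem q).1 (Finset.mem_union_right _ hq)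
    have hr : G.Reachable p q := SimpleGraph.ConnectedComponent.exact (hpc.trans hqc.symm)
    have key : ∀ a b (w : G.Walk a b), a ∈ P → b ∈ P := by
      intro a b w
      induction w with
      | nil => exact id
      | cons hadj w ih =>
        rename_i u v w'
        intro hu
        apply ih
        have huc := (hmem u).1 (Finset.mem_union_left _ hu)
        have hvc : G.connectedComponentMk v = c :=
          (SimpleGraph.ConnectedComponent.sound hadj.reachable.symm).trans huc
        rcases Finset.mem_union.1 ((hmem v).2 hvc) with h | h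
        · exact h
        · exact absurd hadj (ha u hu v h)
    obtain ⟨w⟩ := hr
    exact Finset.disjoint_left.1 hd (key p q w hp) hq
  | join P Q hP hQ hd ha =>
    exact ⟨P, Q, hP.nonempty, hQ.nonempty, hd, fun z => by rw [← hmem, Finset.mem_union], ha⟩

/-- `v` finishes the component `c` -/
def Fin1 (G : SimpleGraph V) (D : Finset V) (c : G.ConnectedComponent) (v : V) : Prop :=
  G.connectedComponentMk v = c ∧
    ∀ x, G.connectedComponentMk x = c → ∃ u ∈ insert v D, u = x ∨ G.Adj u x

/-- the states of a component: Dominator needs `k` moves -/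
def St (G : SimpleGraph V) (D S : Finset V) (c : G.ConnectedComponent) : ℕ → Prop
  | 0 => ∀ x, G.connectedComponentMk x = c → ∃ u ∈ D, u = x ∨ G.Adj u x
  | 1 => ∃ p q, p ≠ q ∧ (p ∉ D ∧ p ∉ S) ∧ (q ∉ D ∧ q ∉ S) ∧ Fin1 G D c p ∧ Fin1 G D c q
  | 2 => (∀ x, G.connectedComponentMk x = c → x ∉ D ∧ x ∉ S) ∧ ∃ P Q : Finset V, Disjoint P Q ∧
      (∀ x, G.connectedComponentMk x = c ↔ x ∈ P ∨ x ∈ Q) ∧ 2 ≤ P.card ∧ 2 ≤ Q.card ∧
      ∀ p ∈ P, ∀ q ∈ Q, G.Adj p q
  | _ => False

lemma St.zero_mono {D S D' S' : Finset V} {c : G.ConnectedComponent} (hD : D ⊆ D')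
    (h : St G D S c 0) : St G D' S' c 0 := by
  intro x hx
  obtain ⟨u, hu, h2⟩ := h x hx
  exact ⟨u, hD hu, h2⟩

lemma St.mono {D S D' S' : Finset V} {c : G.ConnectedComponent} {k : ℕ} (hD : D ⊆ D')
    (h1 : ∀ x, G.connectedComponentMk x = c → x ∈ D' → x ∈ D)
    (h2 : ∀ x, G.connectedComponentMk x = c → x ∈ S' → x ∈ S)
    (h : St G D S c k) : St G D' S' c k := by
  match k, h with
  | 0, h => exact St.zero_mono hD h
  | 1, ⟨p, q, hpq, hp, hq, f1, f2⟩ =>
    have hf : ∀ v, Fin1 G D c v → Fin1 G D' c v := by
      intro v hv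
      refine ⟨hv.1, fun x hx => ?_⟩
      obtain ⟨u, hu, h3⟩ := hv.2 x hx
      exact ⟨u, Finset.insert_subset_insert v hD hu, h3⟩
    exact ⟨p, q, hpq, ⟨fun h => hp.1 (h1 p f1.1 h), fun h => hp.2 (h2 p f1.1 h)⟩,
      ⟨fun h => hq.1 (h1 q f2.1 h), fun h => hq.2 (h2 q f2.1 h)⟩, hf p f1, hf q f2⟩
  | 2, ⟨ha, hb⟩ =>
    exact ⟨fun x hx => ⟨fun h => (ha x hx).1 (h1 x hx h), fun h => (ha x hx).2 (h2 x hx h)⟩, hb⟩

/-- one vertex in the part `P`, two free vertices in the part `Q` -/
lemma St.one_of_join {D S : Finset V} {c : G.ConnectedComponent} {P Q : Finset V}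
    (hd : Disjoint P Q) (hc : ∀ x, G.connectedComponentMk x = c ↔ x ∈ P ∨ x ∈ Q)
    (hQ : 2 ≤ Q.card) (ha : ∀ p ∈ P, ∀ q ∈ Q, G.Adj p q) (hfree : ∀ q ∈ Q, q ∉ D ∧ q ∉ S)
    (v : V) (hv : v ∈ P) : St G (insert v D) S c 1 := by
  obtain ⟨q1, h1, q2, h2, h12⟩ := Finset.one_lt_card.1 hQ
  have hf : ∀ q ∈ Q, q ∉ insert v D ∧ q ∉ S := by
    intro q hq
    refine ⟨fun h => ?_, (hfree q hq).2⟩
    rcases Finset.mem_insert.1 h with h | h
    · rw [h] at hq
      exact Finset.disjoint_left.1 hd hv hq
    · exact (hfree q hq).1 h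
  have hfin : ∀ q ∈ Q, Fin1 G (insert v D) c q := by
    intro q hq
    refine ⟨(hc q).2 (Or.inr hq), fun x hx => ?_⟩
    rcases (hc x).1 hx with h | h
    · exact ⟨q, Finset.mem_insert_self _ _, Or.inr (ha x h q hq).symm⟩
    · exact ⟨v, Finset.mem_insert_of_mem (Finset.mem_insert_self _ _), Or.inr (ha v hv x h)⟩
  exact ⟨q1, q2, h12, hf q1 h1, hf q2 h2, hfin q1 h1, hfin q2 h2⟩

/-- a free move of Dominator -/
lemma St.free {D S : Finset V} {c : G.ConnectedComponent} {k : ℕ} (h : St G D S c (k + 1)) :
    ∃ v, G.connectedComponentMk v = c ∧ v ∉ D ∧ v ∉ S ∧ St G (insert v D) S c k := by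
  match k, h with
  | 0, ⟨p, q, _, hp, _, f1, _⟩ => exact ⟨p, f1.1, hp.1, hp.2, f1.2⟩
  | 1, ⟨ha, P, Q, hd, hc, hP, hQ, hj⟩ =>
    obtain ⟨p, hp⟩ := Finset.card_pos.1 (by omega : 0 < P.card)
    have hpc := (hc p).2 (Or.inl hp)
    exact ⟨p, hpc, (ha p hpc).1, (ha p hpc).2,
      St.one_of_join hd hc hQ hj (fun q hq => ha q ((hc q).2 (Or.inr hq))) p hp⟩

/-- the answer of Dominator in the same component -/
lemma St.reply {D S : Finset V} {c : G.ConnectedComponent} {k : ℕ} (h : St G D S c (k + 1)) (w : V)
    (hw : G.connectedComponentMk w = c) :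
    ∃ v, G.connectedComponentMk v = c ∧ v ∉ D ∧ v ∉ insert w S ∧
      St G (insert v D) (insert w S) c k := by
  match k, h with
  | 0, ⟨p, q, hpq, hp, hq, f1, f2⟩ =>
    by_cases hpw : p = w
    · refine ⟨q, f2.1, hq.1, ?_, f2.2⟩
      rw [Finset.mem_insert, not_or]
      exact ⟨fun h => hpq (hpw.trans h.symm), hq.2⟩
    · refine ⟨p, f1.1, hp.1, ?_, f1.2⟩
      rw [Finset.mem_insert, not_or]
      exact ⟨hpw, hp.2⟩
  | 1, ⟨ha, P, Q, hd, hc, hP, hQ, hj⟩ =>
    have key : ∀ P Q : Finset V, Disjoint P Q →
        (∀ x, G.connectedComponentMk x = c ↔ x ∈ P ∨ x ∈ Q) → 2 ≤ P.card → 2 ≤ Q.card →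
        (∀ p ∈ P, ∀ q ∈ Q, G.Adj p q) → w ∈ P →
        ∃ v, G.connectedComponentMk v = c ∧ v ∉ D ∧ v ∉ insert w S ∧
          St G (insert v D) (insert w S) c 1 := by
      intro P Q hd hc hP hQ hj hwP
      obtain ⟨v, hv, hvw⟩ := Finset.exists_mem_ne (by omega : 1 < P.card) w
      have hvc := (hc v).2 (Or.inl hv)
      refine ⟨v, hvc, (ha v hvc).1, ?_, ?_⟩
      · rw [Finset.mem_insert, not_or]
        exact ⟨hvw, (ha v hvc).2⟩
      · refine St.one_of_join hd hc hQ hj (fun q hq => ?_) v hv
        have hqc := (hc q).2 (Or.inr hq)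
        refine ⟨(ha q hqc).1, ?_⟩
        rw [Finset.mem_insert, not_or]
        refine ⟨fun h => ?_, (ha q hqc).2⟩
        rw [h] at hq
        exact Finset.disjoint_left.1 hd hwP hq
    rcases (hc w).1 hw with h | h
    · exact key P Q hd hc hP hQ hj h
    · exact key Q P hd.symm (fun x => (hc x).trans or_comm) hQ hP
        (fun p hp q hq => (hj q hq p hp).symm) h

/-- all components are dominated -/
lemma dom_of_zero {D S : Finset V} (n : G.ConnectedComponent → ℕ) (h : ∀ c, St G D S c (n c))
    (h0 : ∀ c, n c = 0) : Dom G D := by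
  intro x
  have h1 := h (G.connectedComponentMk x)
  rw [h0] at h1
  exact h1 x rfl

/-- the strategy of Dominator, Staller is to move -/
lemma strategy [Fintype G.ConnectedComponent] (K : ℕ) : ∀ (D S : Finset V)
    (n : G.ConnectedComponent → ℕ), (∀ c, St G D S c (n c)) → ∑ c, n c ≤ K → SWin G K D S := by
  induction K with
  | zero =>
    intro D S n h hK
    refine dom_of_zero n h fun c => ?_
    have := Finset.single_le_sum (f := n) (fun _ _ => Nat.zero_le _) (Finset.mem_univ c)
    omega
  | succ K ih =>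
    intro D S n h hK
    by_cases hD : Dom G D
    · exact Or.inl hD
    right
    obtain ⟨c, hc⟩ : ∃ c, n c ≠ 0 := by
      by_contra hcon
      push Not at hcon
      exact hD (dom_of_zero n h hcon)
    obtain ⟨m, hm⟩ := Nat.exists_eq_succ_of_ne_zero hc
    -- lowering `n` at one component
    have hsum : ∀ (c : G.ConnectedComponent) (m : ℕ), n c = m + 1 →
        ∑ c', Function.update n c m c' ≤ K := by
      intro c m hm
      have h1 : ∑ c', Function.update n c m c' < ∑ c', n c' := by
        refine Finset.sum_lt_sum (fun i _ => ?_) ⟨c, Finset.mem_univ _, ?_⟩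
        · by_cases hi : i = c
          · rw [hi, Function.update_self]
            omega
          · rw [Function.update_of_ne hi]
        · rw [Function.update_self]
          omega
      omega
    have hc1 : St G D S c (m + 1) := by
      have := h c
      rwa [hm] at this
    obtain ⟨v, hv1, hv2, hv3, hv4⟩ := hc1.free
    refine ⟨⟨v, hv2, hv3⟩, fun w hw1 hw2 => ?_⟩
    by_cases hw : n (G.connectedComponentMk w) = 0
    · have hne : c ≠ G.connectedComponentMk w := fun h' => hc (h' ▸ hw)
      refine ⟨v, hv2, ?_, ih _ _ (Function.update n c m) (fun c' => ?_) (hsum c m hm)⟩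
      · rw [Finset.mem_insert, not_or]
        refine ⟨fun h' => hne ?_, hv3⟩
        rw [← hv1, h']
      · by_cases hcc : c' = c
        · rw [hcc, Function.update_self]
          refine St.mono (subset_refl _) (fun _ _ h' => h') (fun x hx h' => ?_) hv4
          rcases Finset.mem_insert.1 h' with h' | h'
          · exact absurd (by rw [← hx, h']) hne
          · exact h'
        · rw [Function.update_of_ne hcc]
          by_cases hcw : c' = G.connectedComponentMk w
          · rw [hcw, hw]
            have h1 := h (G.connectedComponentMk w)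
            rw [hw] at h1
            exact St.zero_mono (Finset.subset_insert _ _) h1
          · refine St.mono (Finset.subset_insert _ _) (fun x hx h' => ?_) (fun x hx h' => ?_) (h c')
            · rcases Finset.mem_insert.1 h' with h' | h'
              · exact absurd (by rw [← hx, h', hv1]) hcc
              · exact h'
            · rcases Finset.mem_insert.1 h' with h' | h'
              · exact absurd (by rw [← hx, h']) hcw
              · exact h'
    · obtain ⟨m', hm'⟩ := Nat.exists_eq_succ_of_ne_zero hw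
      have hc2 : St G D S (G.connectedComponentMk w) (m' + 1) := by
        have := h (G.connectedComponentMk w)
        rwa [hm'] at this
      obtain ⟨u, hu1, hu2, hu3, hu4⟩ := hc2.reply w rfl
      refine ⟨u, hu2, hu3, ih _ _ (Function.update n (G.connectedComponentMk w) m') (fun c' => ?_)
        (hsum _ m' hm')⟩
      by_cases hcc : c' = G.connectedComponentMk w
      · rw [hcc, Function.update_self]
        exact hu4
      · rw [Function.update_of_ne hcc]
        refine St.mono (Finset.subset_insert _ _) (fun x hx h' => ?_) (fun x hx h' => ?_) (h c')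
        · rcases Finset.mem_insert.1 h' with h' | h'
          · exact absurd (by rw [← hx, h', hu1]) hcc
          · exact h'
        · rcases Finset.mem_insert.1 h' with h' | h'
          · exact absurd (by rw [← hx, h']) hcc
          · exact h'

/-- a dominating set without central vertices in `c` has two elements in `c` -/
lemma two_le {D : Finset V} (hD : Dom G D) (x : V)
    (h : ∀ u ∈ D, G.connectedComponentMk u = G.connectedComponentMk x → ¬ Central G u) :
    2 ≤ (D.filter fun u => G.connectedComponentMk u = G.connectedComponentMk x).card := by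
  have hmk : ∀ y, G.connectedComponentMk y = G.connectedComponentMk x →
      ∃ u ∈ D, G.connectedComponentMk u = G.connectedComponentMk x ∧ (u = y ∨ G.Adj u y) := by
    intro y hy
    obtain ⟨u, hu, h1⟩ := hD y
    refine ⟨u, hu, ?_, h1⟩
    rcases h1 with h1 | h1
    · rw [h1, hy]
    · rw [← hy]
      exact SimpleGraph.ConnectedComponent.sound h1.reachable
  obtain ⟨u, hu, hux, _⟩ := hmk x rfl
  by_contra hcon
  have hcard : (D.filter fun u => G.connectedComponentMk u = G.connectedComponentMk x).card ≤ 1 := by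
    omega
  refine h u hu hux fun y hy => ?_
  have hyx : G.connectedComponentMk y = G.connectedComponentMk x := by
    rw [← hux]
    exact SimpleGraph.ConnectedComponent.sound hy.symm
  obtain ⟨u', hu', hu'x, h1⟩ := hmk y hyx
  have he : u = u' := Finset.card_le_one.1 hcard u (Finset.mem_filter.2 ⟨hu, hux⟩) u'
    (Finset.mem_filter.2 ⟨hu', hu'x⟩)
  rw [he]
  exact h1

lemma one_le {D : Finset V} (hD : Dom G D) (x : V) :
    1 ≤ (D.filter fun u => G.connectedComponentMk u = G.connectedComponentMk x).card := by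
  obtain ⟨u, hu, h1⟩ := hD x
  refine Finset.card_pos.2 ⟨u, Finset.mem_filter.2 ⟨hu, ?_⟩⟩
  rcases h1 with h1 | h1
  · rw [h1]
  · exact SimpleGraph.ConnectedComponent.sound h1.reachable

/-- a dominating set which does not contain a lonely vertex is not minimal -/
lemma lonely_lt {D : Finset V} (hD : Dom G D) {w : V} (hw : Lonely G w) (hwD : w ∉ D) :
    gam G < D.card := by
  have h2 := two_le hD w (fun u hu hux hc => hwD (by
    have := hw.2 u (SimpleGraph.ConnectedComponent.exact hux.symm) hc
    rwa [this] at hu))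
  have hdom : Dom G (insert w (D.filter fun u => ¬ G.connectedComponentMk u =
      G.connectedComponentMk w)) := by
    intro x
    by_cases hx : G.connectedComponentMk x = G.connectedComponentMk w
    · exact ⟨w, Finset.mem_insert_self _ _, hw.1 x (SimpleGraph.ConnectedComponent.exact hx.symm)⟩
    · obtain ⟨u, hu, h1⟩ := hD x
      refine ⟨u, Finset.mem_insert_of_mem (Finset.mem_filter.2 ⟨hu, fun h => hx ?_⟩), h1⟩
      rw [← h]
      rcases h1 with h1 | h1
      · rw [h1]
      · exact SimpleGraph.ConnectedComponent.sound h1.reachable.symm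
  have h3 := Finset.card_insert_le w (D.filter fun u => ¬ G.connectedComponentMk u =
    G.connectedComponentMk w)
  have h4 := Finset.card_filter_add_card_filter_not (s := D)
    (fun u => G.connectedComponentMk u = G.connectedComponentMk w)
  have h5 : gam G ≤ _ := Nat.sInf_le ⟨_, rfl, hdom⟩
  omega

/-- the moves of Dominator give a dominating set -/
lemma SWin.dom {k : ℕ} : ∀ {D S : Finset V}, SWin G k D S → Disjoint D S →
    ∃ D', Dom G D' ∧ D'.card ≤ D.card + k ∧ Disjoint D' S := by
  induction k with
  | zero =>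
    intro D S h hd
    exact ⟨D, h, le_refl _, hd⟩
  | succ k ih =>
    intro D S h hd
    rcases h with h | ⟨⟨w, hw1, hw2⟩, h⟩
    · exact ⟨D, h, by omega, hd⟩
    · obtain ⟨v, hv1, hv2, hv3⟩ := h w hw1 hw2
      have hd' : Disjoint (insert v D) (insert w S) := by
        rw [Finset.disjoint_insert_left, Finset.disjoint_insert_right]
        exact ⟨hv2, hw1, hd⟩
      obtain ⟨D', h1, h2, h3⟩ := ih hv3 hd'
      refine ⟨D', h1, ?_, h3.mono_right (Finset.subset_insert _ _)⟩
      have := Finset.card_insert_le v D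
      omega

/-- the strategy of Dominator, Dominator is to move -/
lemma strategyD [Fintype G.ConnectedComponent] (K : ℕ) (D S : Finset V)
    (n : G.ConnectedComponent → ℕ) (h : ∀ c, St G D S c (n c)) (hK : ∑ c, n c ≤ K) :
    DWin G K D S := by
  by_cases hD : Dom G D
  · exact Or.inl hD
  right
  obtain ⟨c, hc⟩ : ∃ c, n c ≠ 0 := by
    by_contra hcon
    push Not at hcon
    exact hD (dom_of_zero n h hcon)
  obtain ⟨m, hm⟩ := Nat.exists_eq_succ_of_ne_zero hc
  have hc1 : St G D S c (m + 1) := by
    have := h c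
    rwa [hm] at this
  obtain ⟨v, hv1, hv2, hv3, hv4⟩ := hc1.free
  have h1 : ∑ c', Function.update n c m c' < ∑ c', n c' := by
    refine Finset.sum_lt_sum (fun i _ => ?_) ⟨c, Finset.mem_univ _, ?_⟩
    · by_cases hi : i = c
      · rw [hi, Function.update_self]
        omega
      · rw [Function.update_of_ne hi]
    · rw [Function.update_self]
      omega
  refine ⟨K - 1, v, by omega, hv2, hv3, strategy (K - 1) _ _ (Function.update n c m)
    (fun c' => ?_) (by omega)⟩
  by_cases hcc : c' = c
  · rw [hcc, Function.update_self]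
    exact hv4
  · rw [Function.update_of_ne hcc]
    refine St.mono (Finset.subset_insert _ _) (fun x hx h' => ?_) (fun x hx h' => h') (h c')
    rcases Finset.mem_insert.1 h' with h' | h'
    · exact absurd (by rw [← hx, h', hv1]) hcc
    · exact h'

/-- the state of a component at the beginning -/
lemma start (hG : IsCograph G) (D0 : Finset V) (c : G.ConnectedComponent)
    (h0 : ∀ x, G.connectedComponentMk x = c → x ∉ D0)
    (hl : ∀ x, G.connectedComponentMk x = c → ¬ Lonely G x) :
    ∃ k, St G D0 ∅ c k ∧
      ∀ D', Dom G D' → k ≤ (D'.filter fun u => G.connectedComponentMk u = c).card := by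
  obtain ⟨x, hx⟩ : ∃ x, G.connectedComponentMk x = c := c.exists_rep
  by_cases hcen : ∃ p, G.connectedComponentMk p = c ∧ Central G p
  · obtain ⟨p, hp, hpc⟩ := hcen
    obtain ⟨q, hpq, hqc, hne⟩ : ∃ q, G.Reachable p q ∧ Central G q ∧ q ≠ p := by
      by_contra hcon
      push Not at hcon
      exact hl p hp ⟨hpc, fun u h1 h2 => hcon u h1 h2⟩
    have hq : G.connectedComponentMk q = c := by
      rw [← hp]
      exact SimpleGraph.ConnectedComponent.sound hpq.symm
    have hf : ∀ v, G.connectedComponentMk v = c → Central G v → Fin1 G D0 c v := by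
      intro v hv hvc
      refine ⟨hv, fun y hy => ⟨v, Finset.mem_insert_self _ _, hvc y ?_⟩⟩
      exact SimpleGraph.ConnectedComponent.exact (hv.trans hy.symm)
    refine ⟨1, ⟨p, q, hne.symm, ⟨h0 p hp, Finset.notMem_empty _⟩, ⟨h0 q hq, Finset.notMem_empty _⟩,
      hf p hp hpc, hf q hq hqc⟩, fun D' hD' => ?_⟩
    rw [← hx]
    exact one_le hD' x
  · push Not at hcen
    obtain ⟨y, hxy, hne⟩ : ∃ y, G.Reachable x y ∧ x ≠ y := by
      have := hcen x hx
      unfold Central at this
      push Not at this
      obtain ⟨y, h1, h2, _⟩ := this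
      exact ⟨y, h1, h2⟩
    have hy : G.connectedComponentMk y = c := by
      rw [← hx]
      exact SimpleGraph.ConnectedComponent.sound hxy.symm
    obtain ⟨P, Q, hP, hQ, hd, hc, hj⟩ := comp_join hG c x y hx hy hne
    have hcard : ∀ P Q : Finset V, P.Nonempty →
        (∀ z, G.connectedComponentMk z = c ↔ z ∈ P ∨ z ∈ Q) →
        (∀ p ∈ P, ∀ q ∈ Q, G.Adj p q) → 2 ≤ P.card := by
      intro P Q hP hc hj
      by_contra hcon
      obtain ⟨p, hp⟩ := hP
      have hle : P.card ≤ 1 := by omega
      have hpc := (hc p).2 (Or.inl hp)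
      refine hcen p hpc fun z hz => ?_
      have hzc : G.connectedComponentMk z = c := by
        rw [← hpc]
        exact SimpleGraph.ConnectedComponent.sound hz.symm
      rcases (hc z).1 hzc with h | h
      · exact Or.inl (Finset.card_le_one.1 hle p hp z h)
      · exact Or.inr (hj p hp z h)
    refine ⟨2, ⟨fun z hz => ⟨h0 z hz, Finset.notMem_empty _⟩, P, Q, hd, hc, hcard P Q hP hc hj,
      hcard Q P hQ (fun z => (hc z).trans or_comm) (fun p hp q hq => (hj q hq p hp).symm), hj⟩,
      fun D' hD' => ?_⟩
    have h2 := two_le hD' x (fun u _ hu => hcen u (hu.trans hx))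
    rwa [hx] at h2

lemma gam_mem : ∃ D : Finset V, D.card = gam G ∧ Dom G D := by
  have h : {n | ∃ D : Finset V, D.card = n ∧ Dom G D}.Nonempty :=
    ⟨_, Finset.univ, rfl, fun x => ⟨x, Finset.mem_univ x, Or.inl rfl⟩⟩
  exact Nat.sInf_mem h

/-- the situation when Dominator has the lonely vertices -/
lemma states [Fintype G.ConnectedComponent] (hG : IsCograph G) (D0 : Finset V)
    (hD0 : ∀ w, w ∈ D0 ↔ Lonely G w) :
    ∃ n : G.ConnectedComponent → ℕ, (∀ c, St G D0 ∅ c (n c)) ∧ ∑ c, n c + D0.card ≤ gam G := by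
  have key : ∀ c : G.ConnectedComponent, ∃ k, St G D0 ∅ c k ∧ ∀ D', Dom G D' →
      k + (D0.filter fun u => G.connectedComponentMk u = c).card ≤
        (D'.filter fun u => G.connectedComponentMk u = c).card := by
    intro c
    by_cases hc : ∃ w, G.connectedComponentMk w = c ∧ Lonely G w
    · obtain ⟨w, hw, hwl⟩ := hc
      refine ⟨0, fun x hx => ⟨w, (hD0 w).2 hwl, hwl.1 x ?_⟩, fun D' hD' => ?_⟩
      · exact SimpleGraph.ConnectedComponent.exact (hw.trans hx.symm)
      · have h1 : (D0.filter fun u => G.connectedComponentMk u = c).card ≤ 1 := by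
          refine Finset.card_le_one.2 fun a ha b hb => ?_
          rw [Finset.mem_filter, hD0] at ha hb
          have ha' := hwl.2 a (SimpleGraph.ConnectedComponent.exact (hw.trans ha.2.symm)) ha.1.1
          have hb' := hwl.2 b (SimpleGraph.ConnectedComponent.exact (hw.trans hb.2.symm)) hb.1.1
          rw [ha', hb']
        have h2 := one_le hD' w
        rw [hw] at h2
        omega
    · push Not at hc
      obtain ⟨k, h1, h2⟩ := start hG D0 c (fun x hx h => hc x hx ((hD0 x).1 h)) hc
      refine ⟨k, h1, fun D' hD' => ?_⟩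
      have h3 : (D0.filter fun u => G.connectedComponentMk u = c) = ∅ := by
        refine Finset.filter_eq_empty_iff.2 fun u hu h => ?_
        exact hc u h ((hD0 u).1 hu)
      rw [h3, Finset.card_empty]
      exact h2 D' hD'
  choose n hn1 hn2 using key
  refine ⟨n, hn1, ?_⟩
  obtain ⟨D', hD'c, hD'⟩ := gam_mem (G := G)
  have h1 := Finset.card_eq_sum_card_fiberwise (f := fun u => G.connectedComponentMk u) (s := D0)
    (t := Finset.univ) (fun _ _ => Finset.mem_coe.2 (Finset.mem_univ _))
  have h2 := Finset.card_eq_sum_card_fiberwise (f := fun u => G.connectedComponentMk u) (s := D')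
    (t := Finset.univ) (fun _ _ => Finset.mem_coe.2 (Finset.mem_univ _))
  rw [← hD'c, h1, h2, ← Finset.sum_add_distrib]
  exact Finset.sum_le_sum fun c _ => hn2 c D' hD'

lemma gam_le_of_SWin {k : ℕ} (h : SWin G k ∅ ∅) : gam G ≤ k := by
  obtain ⟨D', h1, h2, _⟩ := h.dom (Finset.disjoint_empty_left _)
  have h3 : gam G ≤ D'.card := Nat.sInf_le ⟨D', rfl, h1⟩
  rw [Finset.card_empty] at h2
  omega

lemma gam_le_of_DWin {k : ℕ} (h : DWin G k ∅ ∅) : gam G ≤ k := by
  rcases h with h | ⟨j, v, hj, _, _, h⟩
  · have h3 : gam G ≤ (∅ : Finset V).card := Nat.sInf_le ⟨∅, rfl, h⟩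
    rw [Finset.card_empty] at h3
    omega
  · obtain ⟨D', h1, h2, _⟩ := h.dom (Finset.disjoint_empty_right _)
    have h3 : gam G ≤ D'.card := Nat.sInf_le ⟨D', rfl, h1⟩
    have h4 := Finset.card_insert_le v (∅ : Finset V)
    rw [Finset.card_empty] at h4
    omega

lemma sInf_eq_iff (P : ℕ → Prop) (g : ℕ) (h : ∀ k, P k → g ≤ k) :
    sInf {x : ℕ∞ | ∃ k : ℕ, x = k ∧ P k} = g ↔ P g := by
  constructor
  · intro he
    have hne : {x : ℕ∞ | ∃ k : ℕ, x = k ∧ P k}.Nonempty := by
      by_contra hcon
      rw [Set.not_nonempty_iff_eq_empty] at hcon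
      rw [hcon, sInf_empty] at he
      exact ENat.natCast_ne_top g he.symm
    have hm := csInf_mem hne
    rw [he] at hm
    obtain ⟨k, h1, h2⟩ := hm
    rwa [Nat.cast_inj.1 h1]
  · intro hP
    refine le_antisymm (sInf_le ⟨g, rfl, hP⟩) (le_sInf ?_)
    rintro x ⟨k, rfl, hk⟩
    exact Nat.cast_le.2 (h k hk)

lemma not_dom_empty (w : V) : ¬ Dom G ∅ := by
  intro h
  obtain ⟨v, hv, _⟩ := h w
  exact Finset.notMem_empty v hv

/-- every lonely vertex which is not in a dominating set costs one vertex -/
lemma lonely_count (n : ℕ) : ∀ D : Finset V, Dom G D →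
    (Finset.univ.filter fun w => Lonely G w ∧ w ∉ D).card = n → gam G + n ≤ D.card := by
  induction n with
  | zero =>
    intro D hD _
    exact Nat.sInf_le ⟨D, rfl, hD⟩
  | succ n ih =>
    intro D hD hn
    obtain ⟨w, hw⟩ := Finset.card_pos.1 (by omega :
      0 < (Finset.univ.filter fun w => Lonely G w ∧ w ∉ D).card)
    simp only [Finset.mem_filter, Finset.mem_univ, true_and] at hw
    obtain ⟨hwl, hwD⟩ := hw
    have h2 := two_le hD w (fun u hu hux hc => hwD (by
      have := hwl.2 u (SimpleGraph.ConnectedComponent.exact hux.symm) hc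
      rwa [this] at hu))
    set D1 := insert w (D.filter fun u => ¬ G.connectedComponentMk u =
      G.connectedComponentMk w) with hD1
    have hdom : Dom G D1 := by
      intro x
      by_cases hx : G.connectedComponentMk x = G.connectedComponentMk w
      · exact ⟨w, Finset.mem_insert_self _ _,
          hwl.1 x (SimpleGraph.ConnectedComponent.exact hx.symm)⟩
      · obtain ⟨u, hu, h1⟩ := hD x
        refine ⟨u, Finset.mem_insert_of_mem (Finset.mem_filter.2 ⟨hu, fun h => hx ?_⟩), h1⟩
        rw [← h]
        rcases h1 with h1 | h1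
        · rw [h1]
        · exact SimpleGraph.ConnectedComponent.sound h1.reachable.symm
    have h3 : D1.card ≤ (D.filter fun u => ¬ G.connectedComponentMk u =
      G.connectedComponentMk w).card + 1 := Finset.card_insert_le w _
    have h4 := Finset.card_filter_add_card_filter_not (s := D)
      (fun u => G.connectedComponentMk u = G.connectedComponentMk w)
    have h5 : (Finset.univ.filter fun u => Lonely G u ∧ u ∉ D1) =
        (Finset.univ.filter fun u => Lonely G u ∧ u ∉ D).erase w := by
      ext u
      simp only [Finset.mem_filter, Finset.mem_univ, true_and, Finset.mem_erase, hD1,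
        Finset.mem_insert, not_or, not_and, not_not]
      constructor
      · rintro ⟨h6, h7, h8⟩
        refine ⟨h7, h6, fun h9 => h7 ?_⟩
        exact hwl.2 u (SimpleGraph.ConnectedComponent.exact (h8 h9).symm) h6.1
      · rintro ⟨h7, h6, h9⟩
        exact ⟨h6, h7, fun h10 => absurd h10 h9⟩
    have h6 : (Finset.univ.filter fun u => Lonely G u ∧ u ∉ D1).card = n := by
      rw [h5, Finset.card_erase_of_mem (by simp [hwl, hwD]), hn]
      omega
    have h7 := ih D1 hdom h6
    omega

/-- Staller gets half of the free lonely vertices -/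
lemma SWin.lonely {k : ℕ} : ∀ {D S : Finset V}, SWin G k D S → Disjoint D S →
    ∃ D', Dom G D' ∧ D'.card ≤ D.card + k ∧
      2 * (Finset.univ.filter fun w => Lonely G w ∧ w ∈ S).card +
        (Finset.univ.filter fun w => Lonely G w ∧ w ∉ D ∧ w ∉ S).card ≤
      2 * (Finset.univ.filter fun w => Lonely G w ∧ w ∉ D').card := by
  have hbase : ∀ D S : Finset V, Disjoint D S →
      2 * (Finset.univ.filter fun w => Lonely G w ∧ w ∈ S).card +
        (Finset.univ.filter fun w => Lonely G w ∧ w ∉ D ∧ w ∉ S).card ≤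
      2 * (Finset.univ.filter fun w => Lonely G w ∧ w ∉ D).card := by
    intro D S hd
    have h1 : (Finset.univ.filter fun w => Lonely G w ∧ w ∈ S).card +
        (Finset.univ.filter fun w => Lonely G w ∧ w ∉ D ∧ w ∉ S).card ≤
        (Finset.univ.filter fun w => Lonely G w ∧ w ∉ D).card := by
      rw [← Finset.card_union_of_disjoint]
      · refine Finset.card_le_card fun u hu => ?_
        simp only [Finset.mem_union, Finset.mem_filter, Finset.mem_univ, true_and] at hu ⊢
        rcases hu with ⟨h1, h2⟩ | ⟨h1, h2, _⟩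
        · exact ⟨h1, fun h3 => Finset.disjoint_left.1 hd h3 h2⟩
        · exact ⟨h1, h2⟩
      · rw [Finset.disjoint_left]
        intro u hu hu'
        simp only [Finset.mem_filter, Finset.mem_univ, true_and] at hu hu'
        exact hu'.2.2 hu.2
    omega
  induction k with
  | zero =>
    intro D S h hd
    exact ⟨D, h, le_refl _, hbase D S hd⟩
  | succ k ih =>
    intro D S h hd
    rcases h with h | ⟨⟨w0, hw1, hw2⟩, h⟩
    · exact ⟨D, h, by omega, hbase D S hd⟩
    · by_cases hfree : ∃ w, Lonely G w ∧ w ∉ D ∧ w ∉ S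
      · obtain ⟨w, hwl, hwD, hwS⟩ := hfree
        obtain ⟨v, hv1, hv2, hv3⟩ := h w hwD hwS
        have hd' : Disjoint (insert v D) (insert w S) := by
          rw [Finset.disjoint_insert_left, Finset.disjoint_insert_right]
          exact ⟨hv2, hwD, hd⟩
        obtain ⟨D', h1, h2, h3⟩ := ih hv3 hd'
        refine ⟨D', h1, ?_, le_trans ?_ h3⟩
        · have := Finset.card_insert_le v D
          omega
        · have e1 : (Finset.univ.filter fun u => Lonely G u ∧ u ∈ insert w S) =
              insert w (Finset.univ.filter fun u => Lonely G u ∧ u ∈ S) := by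
            ext u
            simp only [Finset.mem_filter, Finset.mem_univ, true_and, Finset.mem_insert]
            constructor
            · rintro ⟨h4, h5 | h5⟩
              · exact Or.inl h5
              · exact Or.inr ⟨h4, h5⟩
            · rintro (h4 | ⟨h4, h5⟩)
              · exact ⟨h4 ▸ hwl, Or.inl h4⟩
              · exact ⟨h4, Or.inr h5⟩
          have e2 : (Finset.univ.filter fun u => Lonely G u ∧ u ∉ D ∧ u ∉ S) ⊆
              insert v (insert w (Finset.univ.filter fun u =>
                Lonely G u ∧ u ∉ insert v D ∧ u ∉ insert w S)) := by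
            intro u hu
            simp only [Finset.mem_filter, Finset.mem_univ, true_and, Finset.mem_insert,
              not_or] at hu ⊢
            by_cases hu1 : u = v
            · exact Or.inl hu1
            · by_cases hu2 : u = w
              · exact Or.inr (Or.inl hu2)
              · exact Or.inr (Or.inr ⟨hu.1, ⟨hu1, hu.2.1⟩, hu2, hu.2.2⟩)
          have e3 := Finset.card_le_card e2
          have e4 := Finset.card_insert_le v (insert w (Finset.univ.filter fun u =>
                Lonely G u ∧ u ∉ insert v D ∧ u ∉ insert w S))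
          have e5 := Finset.card_insert_le w (Finset.univ.filter fun u =>
                Lonely G u ∧ u ∉ insert v D ∧ u ∉ insert w S)
          rw [e1, Finset.card_insert_of_notMem (by simp [hwS])]
          omega
      · push Not at hfree
        obtain ⟨v, hv1, hv2, hv3⟩ := h w0 hw1 hw2
        have hd' : Disjoint (insert v D) (insert w0 S) := by
          rw [Finset.disjoint_insert_left, Finset.disjoint_insert_right]
          exact ⟨hv2, hw1, hd⟩
        obtain ⟨D', h1, h2, h3⟩ := ih hv3 hd'
        refine ⟨D', h1, ?_, le_trans ?_ h3⟩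
        · have := Finset.card_insert_le v D
          omega
        · have e1 : (Finset.univ.filter fun u => Lonely G u ∧ u ∈ S) ⊆
              (Finset.univ.filter fun u => Lonely G u ∧ u ∈ insert w0 S) := by
            intro u hu
            simp only [Finset.mem_filter, Finset.mem_univ, true_and, Finset.mem_insert] at hu ⊢
            exact ⟨hu.1, Or.inr hu.2⟩
          have e2 : (Finset.univ.filter fun u => Lonely G u ∧ u ∉ D ∧ u ∉ S) = ∅ :=
            Finset.filter_eq_empty_iff.2 fun u _ h4 => h4.2.2 (hfree u h4.1 h4.2.1)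
          have e3 := Finset.card_le_card e1
          rw [e2, Finset.card_empty]
          omega

/-- the lower bounds for `SWin` and `DWin` -/
lemma bound_S {k : ℕ} (h : SWin G k ∅ ∅) :
    gam G + ((Finset.univ.filter fun w => Lonely G w).card + 1) / 2 ≤ k := by
  obtain ⟨D', h1, h2, h3⟩ := h.lonely (Finset.disjoint_empty_left _)
  have h4 := lonely_count _ D' h1 rfl
  simp only [Finset.notMem_empty, and_false, not_false_eq_true, and_true, Finset.filter_false,
    Finset.card_empty] at h3 h2
  omega

lemma bound_D {k : ℕ} (h : DWin G k ∅ ∅) :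
    gam G + (Finset.univ.filter fun w => Lonely G w).card / 2 ≤ k := by
  rcases h with h | ⟨j, v, hj, _, _, h⟩
  · have h4 := lonely_count _ (∅ : Finset V) h rfl
    simp only [Finset.notMem_empty, not_false_eq_true, and_true, Finset.card_empty] at h4
    omega
  · obtain ⟨D', h1, h2, h3⟩ := h.lonely (Finset.disjoint_empty_right _)
    have h4 := lonely_count _ D' h1 rfl
    have e2 : (Finset.univ.filter fun u => Lonely G u) ⊆
        insert v (Finset.univ.filter fun u =>
          Lonely G u ∧ u ∉ insert v (∅ : Finset V) ∧ u ∉ (∅ : Finset V)) := by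
      intro u hu
      simp only [Finset.mem_filter, Finset.mem_univ, true_and, Finset.mem_insert,
        Finset.notMem_empty, or_false, not_false_eq_true, and_true] at hu ⊢
      by_cases hu1 : u = v
      · exact Or.inl hu1
      · exact Or.inr ⟨hu, hu1⟩
    have e3 := Finset.card_le_card e2
    have e4 := Finset.card_insert_le v (Finset.univ.filter fun u =>
          Lonely G u ∧ u ∉ insert v (∅ : Finset V) ∧ u ∉ (∅ : Finset V))
    have e5 := Finset.card_insert_le v (∅ : Finset V)
    rw [Finset.card_empty] at e5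
    omega

/-- The lower bounds, for all graphs. -/
theorem bounds (G : SimpleGraph V) :
    ((gam G + ((Finset.univ.filter fun w => Lonely G w).card + 1) / 2 : ℕ) : ℕ∞) ≤ gMB' G ∧
    ((gam G + (Finset.univ.filter fun w => Lonely G w).card / 2 : ℕ) : ℕ∞) ≤ gMB G := by
  constructor
  · refine le_sInf ?_
    rintro x ⟨k, rfl, hk⟩
    exact Nat.cast_le.2 (bound_S hk)
  · refine le_sInf ?_
    rintro x ⟨k, rfl, hk⟩
    exact Nat.cast_le.2 (bound_D hk)

/-- **The cographs with `γ_MB' = γ` and with `γ_MB = γ`.** -/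
theorem equality {V : Type} [Fintype V] (G : SimpleGraph V) (hG : IsCograph G) :
    (gMB' G = gam G ↔ ∀ v, ¬ Lonely G v) ∧
    (gMB G = gam G ↔ ∀ v w, Lonely G v → Lonely G w → v = w) := by
  have : Fintype G.ConnectedComponent := Fintype.ofFinite _
  constructor
  · unfold gMB'
    rw [sInf_eq_iff (fun k => SWin G k ∅ ∅) (gam G) (fun k hk => gam_le_of_SWin hk)]
    constructor
    · intro h w hw
      rcases hk : gam G with _ | k
      · rw [hk] at h
        exact not_dom_empty w h
      · rw [hk] at h
        rcases h with h | ⟨_, h⟩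
        · exact not_dom_empty w h
        · obtain ⟨v, _, hv, h⟩ := h w (Finset.notMem_empty _) (Finset.notMem_empty _)
          obtain ⟨D', h1, h2, h3⟩ := h.dom (by
            rw [Finset.disjoint_insert_left]
            exact ⟨hv, Finset.disjoint_empty_left _⟩)
          have h4 := lonely_lt h1 hw (fun h5 => Finset.disjoint_left.1 h3 h5
            (Finset.mem_insert_self _ _))
          have h5 := Finset.card_insert_le v (∅ : Finset V)
          rw [Finset.card_empty] at h5
          omega
    · intro h
      obtain ⟨n, h1, h2⟩ := states hG ∅ (fun w => ⟨fun h' => absurd h' (Finset.notMem_empty _),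
        fun h' => absurd h' (h w)⟩)
      exact strategy (gam G) ∅ ∅ n h1 (by rw [Finset.card_empty] at h2; omega)
  · unfold gMB
    rw [sInf_eq_iff (fun k => DWin G k ∅ ∅) (gam G) (fun k hk => gam_le_of_DWin hk)]
    constructor
    · intro h w1 w2 hw1 hw2
      by_contra hne
      rcases h with h | ⟨j, v, hj, _, _, h⟩
      · exact not_dom_empty w1 h
      · have hnd : ¬ Dom G (insert v ∅) := by
          intro hd
          have hr : ∀ x, G.Reachable v x := by
            intro x
            obtain ⟨u, hu, h1⟩ := hd x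
            have huv : u = v := by
              rcases Finset.mem_insert.1 hu with h' | h'
              · exact h'
              · exact absurd h' (Finset.notMem_empty _)
            rw [huv] at h1
            rcases h1 with h1 | h1
            · rw [h1]
            · exact h1.reachable
          exact hne (hw1.2 w2 ((hr w1).symm.trans (hr w2)) hw2.1).symm
        obtain ⟨w, hw, hwv⟩ : ∃ w, Lonely G w ∧ w ≠ v := by
          by_cases h1 : w1 = v
          · exact ⟨w2, hw2, fun h2 => hne (h1.trans h2.symm)⟩
          · exact ⟨w1, hw1, h1⟩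
        rcases j with _ | j
        · exact hnd h
        · rcases h with h | ⟨_, h⟩
          · exact hnd h
          · have hwv' : w ∉ insert v (∅ : Finset V) := by
              rw [Finset.mem_insert, not_or]
              exact ⟨hwv, Finset.notMem_empty _⟩
            obtain ⟨u, _, hu, h⟩ := h w hwv' (Finset.notMem_empty _)
            obtain ⟨D', h1, h2, h3⟩ := h.dom (by
              rw [Finset.disjoint_insert_left]
              refine ⟨hu, ?_⟩
              rw [Finset.disjoint_insert_right]
              exact ⟨hwv', Finset.disjoint_empty_right _⟩)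
            have h4 := lonely_lt h1 hw (fun h5 => Finset.disjoint_left.1 h3 h5
              (Finset.mem_insert_self _ _))
            have h5 := Finset.card_insert_le v (∅ : Finset V)
            have h6 := Finset.card_insert_le u (insert v (∅ : Finset V))
            rw [Finset.card_empty] at h5
            omega
    · intro h
      obtain ⟨n, h1, h2⟩ := states hG (Finset.univ.filter fun w => Lonely G w) (fun w => by simp)
      by_cases hex : ∃ w, Lonely G w
      · obtain ⟨w, hw⟩ := hex
        have hD0 : (Finset.univ.filter fun w => Lonely G w) = insert w ∅ := by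
          ext u
          simp only [Finset.mem_filter, Finset.mem_univ, true_and, Finset.mem_insert,
            Finset.notMem_empty, or_false]
          exact ⟨fun hu => h u w hu hw, fun hu => hu ▸ hw⟩
        rw [hD0] at h1 h2
        rw [Finset.card_insert_of_notMem (Finset.notMem_empty _), Finset.card_empty] at h2
        exact Or.inr ⟨gam G - 1, w, by omega, Finset.notMem_empty _, Finset.notMem_empty _,
          strategy (gam G - 1) _ _ n h1 (by omega)⟩
      · push Not at hex
        have hD0 : (Finset.univ.filter fun w => Lonely G w) = ∅ :=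
          Finset.filter_eq_empty_iff.2 fun u _ => hex u
        rw [hD0] at h1 h2
        exact strategyD (gam G) _ _ n h1 (by omega)

/-! ### Exact values -/

/-- Dominator needs two moves, one in each of two sets with at least two free vertices -/
def Two (G : SimpleGraph V) (D S : Finset V) (c : G.ConnectedComponent) : Prop :=
  ∃ P Q : Finset V, Disjoint P Q ∧
    (∀ x, x ∈ P ∨ x ∈ Q → G.connectedComponentMk x = c ∧ x ∉ D ∧ x ∉ S) ∧
    2 ≤ P.card ∧ 2 ≤ Q.card ∧ ∀ p ∈ P, ∀ q ∈ Q, ∀ x, G.connectedComponentMk x = c →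
      (p = x ∨ G.Adj p x) ∨ (q = x ∨ G.Adj q x)

/-- one move of Dominator is enough, and two are needed if Staller takes the vertex `w` -/
def Hot (G : SimpleGraph V) (D S : Finset V) (c : G.ConnectedComponent) : Prop :=
  ∃ w, (G.connectedComponentMk w = c ∧ w ∉ D ∧ w ∉ S) ∧
    (∀ x, G.connectedComponentMk x = c → w = x ∨ G.Adj w x) ∧ Two G D (insert w S) c

/-- the states of a component -/
def T (G : SimpleGraph V) (D S : Finset V) (c : G.ConnectedComponent) : ℕ → Prop
  | 0 => St G D S c 0
  | 1 => St G D S c 1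
  | 2 => Two G D S c
  | 3 => Hot G D S c
  | _ => False

/-- the number of the moves needed in a state -/
def cost : ℕ → ℕ
  | 0 => 0
  | 2 => 2
  | _ => 1

/-- the hot state -/
def hot : ℕ → ℕ
  | 3 => 1
  | _ => 0

lemma c0 : cost 0 = 0 := rfl
lemma c1 : cost 1 = 1 := rfl
lemma c2 : cost 2 = 2 := rfl
lemma c3 : cost 3 = 1 := rfl
lemma c01 : cost (0 + 1) = 1 := rfl
lemma c11 : cost (1 + 1) = 2 := rfl
lemma h0 : hot 0 = 0 := rfl
lemma h1 : hot 1 = 0 := rfl
lemma h2 : hot 2 = 0 := rfl
lemma h3 : hot 3 = 1 := rfl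
lemma h01 : hot (0 + 1) = 0 := rfl
lemma h11 : hot (1 + 1) = 0 := rfl

lemma Two.mono {D S D' S' : Finset V} {c : G.ConnectedComponent}
    (h1 : ∀ x, G.connectedComponentMk x = c → x ∈ D' → x ∈ D)
    (h2 : ∀ x, G.connectedComponentMk x = c → x ∈ S' → x ∈ S)
    (h : Two G D S c) : Two G D' S' c := by
  obtain ⟨P, Q, hd, hf, hP, hQ, hj⟩ := h
  exact ⟨P, Q, hd, fun x hx => ⟨(hf x hx).1, fun h => (hf x hx).2.1 (h1 x (hf x hx).1 h),
    fun h => (hf x hx).2.2 (h2 x (hf x hx).1 h)⟩, hP, hQ, hj⟩

lemma T.mono {D S D' S' : Finset V} {c : G.ConnectedComponent} {k : ℕ} (hD : D ⊆ D')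
    (h1 : ∀ x, G.connectedComponentMk x = c → x ∈ D' → x ∈ D)
    (h2 : ∀ x, G.connectedComponentMk x = c → x ∈ S' → x ∈ S)
    (h : T G D S c k) : T G D' S' c k := by
  match k, h with
  | 0, h => exact St.zero_mono (S := S) (S' := S') hD h
  | 1, h => exact St.mono (k := 1) hD h1 h2 h
  | 2, h => exact Two.mono h1 h2 h
  | 3, ⟨w, hw, hc, h⟩ =>
    refine ⟨w, ⟨hw.1, fun h => hw.2.1 (h1 w hw.1 h), fun h => hw.2.2 (h2 w hw.1 h)⟩, hc,
      Two.mono h1 (fun x hx h' => ?_) h⟩
    rcases Finset.mem_insert.1 h' with h' | h'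
    · rw [h']
      exact Finset.mem_insert_self _ _
    · exact Finset.mem_insert_of_mem (h2 x hx h')

lemma Two.one {D S : Finset V} {c : G.ConnectedComponent} {P Q : Finset V}
    (hd : Disjoint P Q) (hf : ∀ x ∈ Q, G.connectedComponentMk x = c ∧ x ∉ D ∧ x ∉ S)
    (hQ : 2 ≤ Q.card) (hj : ∀ p ∈ P, ∀ q ∈ Q, ∀ x, G.connectedComponentMk x = c →
      (p = x ∨ G.Adj p x) ∨ (q = x ∨ G.Adj q x))
    (v : V) (hv : v ∈ P) : St G (insert v D) S c 1 := by
  obtain ⟨q1, h1, q2, h2, h12⟩ := Finset.one_lt_card.1 hQ
  have hfr : ∀ q ∈ Q, q ∉ insert v D ∧ q ∉ S := by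
    intro q hq
    refine ⟨fun h => ?_, (hf q hq).2.2⟩
    rcases Finset.mem_insert.1 h with h | h
    · rw [h] at hq
      exact Finset.disjoint_left.1 hd hv hq
    · exact (hf q hq).2.1 h
  have hfin : ∀ q ∈ Q, Fin1 G (insert v D) c q := by
    intro q hq
    refine ⟨(hf q hq).1, fun x hx => ?_⟩
    rcases hj v hv q hq x hx with h | h
    · exact ⟨v, Finset.mem_insert_of_mem (Finset.mem_insert_self _ _), h⟩
    · exact ⟨q, Finset.mem_insert_self _ _, h⟩
  exact ⟨q1, q2, h12, hfr q1 h1, hfr q2 h2, hfin q1 h1, hfin q2 h2⟩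

lemma T.free {D S : Finset V} {c : G.ConnectedComponent} {k : ℕ} (hk : k ≤ 1)
    (h : T G D S c (k + 1)) :
    ∃ v, G.connectedComponentMk v = c ∧ v ∉ D ∧ v ∉ S ∧ T G (insert v D) S c k := by
  match k, h with
  | 0, h =>
    obtain ⟨v, h1, h2, h3, h4⟩ := St.free (k := 0) h
    exact ⟨v, h1, h2, h3, h4⟩
  | 1, ⟨P, Q, hd, hf, hP, hQ, hj⟩ =>
    obtain ⟨p, hp⟩ := Finset.card_pos.1 (by omega : 0 < P.card)
    exact ⟨p, (hf p (Or.inl hp)).1, (hf p (Or.inl hp)).2.1, (hf p (Or.inl hp)).2.2,
      Two.one hd (fun x hx => hf x (Or.inr hx)) hQ hj p hp⟩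

lemma T.reply {D S : Finset V} {c : G.ConnectedComponent} {k : ℕ} (hk : k ≤ 1)
    (h : T G D S c (k + 1)) (w : V) (hw : G.connectedComponentMk w = c) :
    ∃ v, G.connectedComponentMk v = c ∧ v ∉ D ∧ v ∉ insert w S ∧
      T G (insert v D) (insert w S) c k := by
  match k, h with
  | 0, h =>
    obtain ⟨v, h1, h2, h3, h4⟩ := St.reply (k := 0) h w hw
    exact ⟨v, h1, h2, h3, h4⟩
  | 1, ⟨P, Q, hd, hf, hP, hQ, hj⟩ =>
    have key : ∀ P Q : Finset V, Disjoint P Q →
        (∀ x, x ∈ P ∨ x ∈ Q → G.connectedComponentMk x = c ∧ x ∉ D ∧ x ∉ S) →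
        2 ≤ P.card → 2 ≤ Q.card → (∀ p ∈ P, ∀ q ∈ Q, ∀ x, G.connectedComponentMk x = c →
        (p = x ∨ G.Adj p x) ∨ (q = x ∨ G.Adj q x)) → w ∉ Q →
        ∃ v, G.connectedComponentMk v = c ∧ v ∉ D ∧ v ∉ insert w S ∧
          T G (insert v D) (insert w S) c 1 := by
      intro P Q hd hf hP hQ hj hwQ
      obtain ⟨v, hv, hvw⟩ := Finset.exists_mem_ne (by omega : 1 < P.card) w
      have hvf := hf v (Or.inl hv)
      refine ⟨v, hvf.1, hvf.2.1, ?_, ?_⟩
      · rw [Finset.mem_insert, not_or]
        exact ⟨hvw, hvf.2.2⟩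
      · refine Two.one hd (fun q hq => ?_) hQ hj v hv
        have hqf := hf q (Or.inr hq)
        refine ⟨hqf.1, hqf.2.1, ?_⟩
        rw [Finset.mem_insert, not_or]
        exact ⟨fun h => hwQ (h ▸ hq), hqf.2.2⟩
    by_cases hwQ : w ∈ Q
    · exact key Q P hd.symm (fun x hx => hf x hx.symm) hQ hP
        (fun p hp q hq x hx => (hj q hq p hp x hx).symm)
        (fun h => Finset.disjoint_left.1 hd h hwQ)
    · exact key P Q hd hf hP hQ hj hwQ

lemma dom_of_zero' {D S : Finset V} (n : G.ConnectedComponent → ℕ) (h : ∀ c, T G D S c (n c))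
    (h0 : ∀ c, n c = 0) : Dom G D := by
  intro x
  have h1 := h (G.connectedComponentMk x)
  rw [h0] at h1
  exact h1 x rfl

lemma sum_update [Fintype G.ConnectedComponent] (F : ℕ → ℕ) (n : G.ConnectedComponent → ℕ)
    (c : G.ConnectedComponent) (m : ℕ) :
    ∑ c', F (Function.update n c m c') + F (n c) = ∑ c', F (n c') + F m := by
  rw [← Finset.add_sum_erase Finset.univ (fun c' => F (Function.update n c m c'))
    (Finset.mem_univ c), ← Finset.add_sum_erase Finset.univ (fun c' => F (n c'))
    (Finset.mem_univ c), Function.update_self]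
  have h : ∑ x ∈ Finset.univ.erase c, F (Function.update n c m x) =
      ∑ x ∈ Finset.univ.erase c, F (n x) :=
    Finset.sum_congr rfl fun x hx => by rw [Function.update_of_ne (Finset.ne_of_mem_erase hx)]
  rw [h]
  omega

lemma T.lt {D S : Finset V} {c : G.ConnectedComponent} {k : ℕ} (h : T G D S c k) : k ≤ 3 := by
  match k, h with
  | 0, _ => omega
  | 1, _ => omega
  | 2, _ => omega
  | 3, _ => omega

/-- changing the state of one component -/
lemma T.change {D S D' S' : Finset V} (n : G.ConnectedComponent → ℕ) (h : ∀ c, T G D S c (n c))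
    (c : G.ConnectedComponent) (m : ℕ) (hD : D ⊆ D')
    (h1 : ∀ x, G.connectedComponentMk x ≠ c → x ∈ D' → x ∈ D)
    (h2 : ∀ x, G.connectedComponentMk x ≠ c → x ∈ S' → x ∈ S) (hc : T G D' S' c m) :
    ∀ c', T G D' S' c' (Function.update n c m c') := by
  intro c'
  by_cases hcc : c' = c
  · rw [hcc, Function.update_self]
    exact hc
  · rw [Function.update_of_ne hcc]
    exact T.mono hD (fun x hx => h1 x (hx.trans_ne hcc)) (fun x hx => h2 x (hx.trans_ne hcc)) (h c')

/-- a move of Dominator -/
lemma moveD [Fintype G.ConnectedComponent] {K : ℕ} {D S : Finset V}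
    (n : G.ConnectedComponent → ℕ) (h : ∀ c, T G D S c (n c))
    (hK : ∑ c, cost (n c) + (∑ c, hot (n c)) / 2 ≤ K + 1) (hD : ¬ Dom G D) :
    ∃ (v : V) (n' : G.ConnectedComponent → ℕ), v ∉ D ∧ v ∉ S ∧ (∀ c, T G (insert v D) S c (n' c)) ∧
      ∑ c, cost (n' c) + (∑ c, hot (n' c) + 1) / 2 ≤ K := by
  have hmv : ∀ (v : V) (c : G.ConnectedComponent), G.connectedComponentMk v = c →
      ∀ x, G.connectedComponentMk x ≠ c → x ∈ insert v D → x ∈ D := by
    intro v c hv x hx h'
    rcases Finset.mem_insert.1 h' with h' | h'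
    · exact absurd (by rw [h', hv]) hx
    · exact h'
  by_cases hex : ∃ c, n c = 3
  · obtain ⟨c, hc⟩ := hex
    have hc1 := h c
    rw [hc] at hc1
    obtain ⟨w, hw, hcen, _⟩ := hc1
    refine ⟨w, Function.update n c 0, hw.2.1, hw.2.2, T.change n h c 0 (Finset.subset_insert _ _)
      (hmv w c hw.1) (fun x _ h' => h') ?_, ?_⟩
    · intro x hx
      exact ⟨w, Finset.mem_insert_self _ _, hcen x hx⟩
    · have e1 := sum_update cost n c 0
      have e2 := sum_update hot n c 0
      rw [hc] at e1 e2
      simp only [c0, c1, c2, c3, c01, c11, MinimalForCographs.h0, MinimalForCographs.h1, MinimalForCographs.h2, MinimalForCographs.h3, h01, h11] at e1 e2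
      omega
  · push Not at hex
    obtain ⟨c, hc⟩ : ∃ c, n c ≠ 0 := by
      by_contra hcon
      push Not at hcon
      exact hD (dom_of_zero' n h hcon)
    obtain ⟨m, hm⟩ := Nat.exists_eq_succ_of_ne_zero hc
    have hm1 : m ≤ 1 := by
      have h3 := (h c).lt
      have h4 := hex c
      omega
    have hc1 := h c
    rw [hm] at hc1
    obtain ⟨v, hv1, hv2, hv3, hv4⟩ := hc1.free hm1
    have hz : ∑ c, hot (n c) = 0 := by
      refine Finset.sum_eq_zero fun c _ => ?_
      have h3 := (h c).lt
      have h4 := hex c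
      have h5 : n c = 0 ∨ n c = 1 ∨ n c = 2 := by omega
      rcases h5 with h5 | h5 | h5 <;> rw [h5] <;> rfl
    refine ⟨v, Function.update n c m, hv2, hv3, T.change n h c m (Finset.subset_insert _ _)
      (hmv v c hv1) (fun x _ h' => h') hv4, ?_⟩
    have e1 := sum_update cost n c m
    have e2 := sum_update hot n c m
    have hm' : n c = m + 1 := hm
    rw [hm'] at e1 e2
    have h5 : m = 0 ∨ m = 1 := by omega
    rcases h5 with h5 | h5 <;> subst h5 <;> simp only [c0, c1, c2, c3, c01, c11, MinimalForCographs.h0, MinimalForCographs.h1, MinimalForCographs.h2, MinimalForCographs.h3, h01, h11] at e1 e2 <;> omega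

/-- the strategy of Dominator, Staller is to move -/
lemma strategy' [Fintype G.ConnectedComponent] (K : ℕ) : ∀ (D S : Finset V)
    (n : G.ConnectedComponent → ℕ), (∀ c, T G D S c (n c)) →
    ∑ c, cost (n c) + (∑ c, hot (n c) + 1) / 2 ≤ K → SWin G K D S := by
  induction K with
  | zero =>
    intro D S n h hK
    refine dom_of_zero' n h fun c => ?_
    have h1 := Finset.single_le_sum (f := fun c => cost (n c)) (fun _ _ => Nat.zero_le _)
      (Finset.mem_univ c)
    have h2 : cost (n c) = 0 := by
      have : cost (n c) ≤ ∑ c, cost (n c) := h1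
      omega
    have h3 := (h c).lt
    have h5 : n c = 0 ∨ n c = 1 ∨ n c = 2 ∨ n c = 3 := by omega
    rcases h5 with h5 | h5 | h5 | h5
    · exact h5
    all_goals
      rw [h5] at h2
      simp [cost] at h2
  | succ K ih =>
    intro D S n h hK
    by_cases hD : Dom G D
    · exact Or.inl hD
    right
    have hK' : ∑ c, cost (n c) + (∑ c, hot (n c)) / 2 ≤ K + 1 := by omega
    obtain ⟨v, n', hv1, hv2, _, _⟩ := moveD n h hK' hD
    refine ⟨⟨v, hv1, hv2⟩, fun w hw1 hw2 => ?_⟩
    have hmw : ∀ x, G.connectedComponentMk x ≠ G.connectedComponentMk w → x ∈ insert w S → x ∈ S := by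
      intro x hx h'
      rcases Finset.mem_insert.1 h' with h' | h'
      · exact absurd (by rw [h']) hx
      · exact h'
    have hmv : ∀ (v : V) (c : G.ConnectedComponent), G.connectedComponentMk v = c →
        ∀ x, G.connectedComponentMk x ≠ c → x ∈ insert v D → x ∈ D := by
      intro v c hv x hx h'
      rcases Finset.mem_insert.1 h' with h' | h'
      · exact absurd (by rw [h', hv]) hx
      · exact h'
    have h3 := (h (G.connectedComponentMk w)).lt
    have h5 : n (G.connectedComponentMk w) = 0 ∨ n (G.connectedComponentMk w) = 3 ∨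
        ∃ m, m ≤ 1 ∧ n (G.connectedComponentMk w) = m + 1 := by
      by_cases h6 : n (G.connectedComponentMk w) = 0
      · exact Or.inl h6
      · by_cases h7 : n (G.connectedComponentMk w) = 3
        · exact Or.inr (Or.inl h7)
        · exact Or.inr (Or.inr ⟨n (G.connectedComponentMk w) - 1, by omega, by omega⟩)
    have hc := h (G.connectedComponentMk w)
    rcases h5 with h5 | h5 | ⟨m, hm, h5⟩
    · rw [h5] at hc
      have h6 : ∀ c, T G D (insert w S) c (n c) := by
        have h7 := T.change n h (G.connectedComponentMk w) 0 (subset_refl D)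
          (fun _ _ h' => h') hmw (St.zero_mono (S := S) (S' := insert w S) (subset_refl D) hc)
        have h8 : Function.update n (G.connectedComponentMk w) 0 = n := by
          rw [← h5, Function.update_eq_self]
        rwa [h8] at h7
      obtain ⟨u, n', hu1, hu2, hu3, hu4⟩ := moveD n h6 hK' hD
      exact ⟨u, hu1, hu2, ih _ _ n' hu3 hu4⟩
    · rw [h5] at hc
      obtain ⟨w', hw', hcen, htwo⟩ := hc
      by_cases hww : w' = w
      · rw [hww] at htwo
        have h6 := T.change n h (G.connectedComponentMk w) 2 (subset_refl D)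
          (fun _ _ h' => h') hmw htwo
        have e1 := sum_update cost n (G.connectedComponentMk w) 2
        have e2 := sum_update hot n (G.connectedComponentMk w) 2
        rw [h5] at e1 e2
        simp only [c0, c1, c2, c3, c01, c11, MinimalForCographs.h0, MinimalForCographs.h1, MinimalForCographs.h2, MinimalForCographs.h3, h01, h11] at e1 e2
        obtain ⟨u, n', hu1, hu2, hu3, hu4⟩ := moveD (K := K) _ h6 (by omega) hD
        exact ⟨u, hu1, hu2, ih _ _ n' hu3 hu4⟩
      · refine ⟨w', hw'.2.1, ?_, ih _ _ (Function.update n (G.connectedComponentMk w) 0)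
          (T.change n h _ 0 (Finset.subset_insert _ _) (hmv w' _ hw'.1) hmw ?_) ?_⟩
        · rw [Finset.mem_insert, not_or]
          exact ⟨hww, hw'.2.2⟩
        · intro x hx
          exact ⟨w', Finset.mem_insert_self _ _, hcen x hx⟩
        · have e1 := sum_update cost n (G.connectedComponentMk w) 0
          have e2 := sum_update hot n (G.connectedComponentMk w) 0
          rw [h5] at e1 e2
          simp only [c0, c1, c2, c3, c01, c11, MinimalForCographs.h0, MinimalForCographs.h1, MinimalForCographs.h2, MinimalForCographs.h3, h01, h11] at e1 e2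
          omega
    · rw [h5] at hc
      obtain ⟨u, hu1, hu2, hu3, hu4⟩ := hc.reply hm w rfl
      refine ⟨u, hu2, hu3, ih _ _ (Function.update n (G.connectedComponentMk w) m)
        (T.change n h _ m (Finset.subset_insert _ _) (hmv u _ hu1) hmw hu4) ?_⟩
      have e1 := sum_update cost n (G.connectedComponentMk w) m
      have e2 := sum_update hot n (G.connectedComponentMk w) m
      rw [h5] at e1 e2
      have h5 : m = 0 ∨ m = 1 := by omega
      rcases h5 with h5 | h5 <;> subst h5 <;> simp only [c0, c1, c2, c3, c01, c11, MinimalForCographs.h0, MinimalForCographs.h1, MinimalForCographs.h2, MinimalForCographs.h3, h01, h11] at e1 e2 <;> omega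

/-- The other vertices of the component of `w` induce a nonempty connected graph. -/
def RestConnected (G : SimpleGraph V) (w : V) : Prop :=
  (∃ x, x ≠ w ∧ G.Reachable w x) ∧ ∀ P Q : Finset V, P.Nonempty → Q.Nonempty →
    (∀ x, (G.Reachable w x ∧ x ≠ w) ↔ x ∈ P ∨ x ∈ Q) → ∃ p ∈ P, ∃ q ∈ Q, p = q ∨ G.Adj p q

/-- a lonely vertex with connected rest is hot -/
lemma hot_start (hG : IsCograph G) (w : V) (hw : Lonely G w) (hr : RestConnected G w) :
    Hot G ∅ ∅ (G.connectedComponentMk w) := by
  obtain ⟨⟨x0, hx0, hx0r⟩, hcut⟩ := hr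
  have hmemT : ∀ z, z ∈ (Finset.univ.filter fun z => G.Reachable w z ∧ z ≠ w) ↔
      (G.Reachable w z ∧ z ≠ w) := by simp
  have h := Cog.sub hG (Finset.univ.filter fun z => G.Reachable w z ∧ z ≠ w)
    (Finset.subset_univ _) ⟨x0, by simp [hx0, hx0r]⟩
  have hcomp : ∀ z, G.connectedComponentMk z = G.connectedComponentMk w ↔ G.Reachable w z :=
    fun z => ⟨fun h => SimpleGraph.ConnectedComponent.exact h.symm,
      fun h => SimpleGraph.ConnectedComponent.sound h.symm⟩
  refine ⟨w, ⟨rfl, Finset.notMem_empty _, Finset.notMem_empty _⟩,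
    fun x hx => hw.1 x ((hcomp x).1 hx), ?_⟩
  generalize hT : (Finset.univ.filter fun z => G.Reachable w z ∧ z ≠ w) = T0 at h hmemT
  cases h with
  | single v =>
    exfalso
    have hv := (hmemT v).1 (Finset.mem_singleton_self v)
    refine hv.2 (hw.2 v hv.1 fun y hy => ?_)
    by_cases hyw : y = w
    · rw [hyw]
      rcases hw.1 v hv.1 with h1 | h1
      · exact absurd h1.symm hv.2
      · exact Or.inr h1.symm
    · have := (hmemT y).2 ⟨hv.1.trans hy, hyw⟩
      rw [Finset.mem_singleton] at this
      exact Or.inl this.symm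
  | union P Q hP hQ hd ha =>
    exfalso
    obtain ⟨p, hp, q, hq, hpq⟩ := hcut P Q hP.nonempty hQ.nonempty
      (fun x => by rw [← hmemT, Finset.mem_union])
    rcases hpq with hpq | hpq
    · rw [hpq] at hp
      exact Finset.disjoint_left.1 hd hp hq
    · exact ha p hp q hq hpq
  | join P Q hP hQ hd ha =>
    have hmem : ∀ z, (G.Reachable w z ∧ z ≠ w) ↔ z ∈ P ∨ z ∈ Q :=
      fun z => by rw [← hmemT, Finset.mem_union]
    have hcard : ∀ P Q : Finset V, P.Nonempty → (∀ z, (G.Reachable w z ∧ z ≠ w) ↔ z ∈ P ∨ z ∈ Q) →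
        (∀ p ∈ P, ∀ q ∈ Q, G.Adj p q) → 2 ≤ P.card := by
      intro P Q hP hc hj
      by_contra hcon
      obtain ⟨p, hp⟩ := hP
      have hle : P.card ≤ 1 := by omega
      have hpr := (hc p).2 (Or.inl hp)
      refine hpr.2 (hw.2 p hpr.1 fun y hy => ?_)
      by_cases hyw : y = w
      · rw [hyw]
        rcases hw.1 p hpr.1 with h1 | h1
        · exact absurd h1.symm hpr.2
        · exact Or.inr h1.symm
      · rcases (hc y).1 ⟨hpr.1.trans hy, hyw⟩ with h1 | h1
        · exact Or.inl (Finset.card_le_one.1 hle p hp y h1)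
        · exact Or.inr (hj p hp y h1)
    refine ⟨P, Q, hd, fun x hx => ⟨(hcomp x).2 ((hmem x).2 hx).1, Finset.notMem_empty _, ?_⟩,
      hcard P Q hP.nonempty hmem ha, hcard Q P hQ.nonempty (fun z => (hmem z).trans or_comm)
      (fun p hp q hq => (ha q hq p hp).symm), fun p hp q hq x hx => ?_⟩
    · rw [Finset.mem_insert, not_or]
      exact ⟨((hmem x).2 hx).2, Finset.notMem_empty _⟩
    · by_cases hxw : x = w
      · left
        have hpr := (hmem p).2 (Or.inl hp)
        rw [hxw]
        rcases hw.1 p hpr.1 with h1 | h1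
        · exact absurd h1.symm hpr.2
        · exact Or.inr h1.symm
      · rcases (hmem x).1 ⟨(hcomp x).1 hx, hxw⟩ with h1 | h1
        · exact Or.inr (Or.inr (ha x h1 q hq).symm)
        · exact Or.inl (Or.inr (ha p hp x h1))

lemma states' [Fintype G.ConnectedComponent] (hG : IsCograph G)
    (hr : ∀ w, Lonely G w → RestConnected G w) :
    ∃ n : G.ConnectedComponent → ℕ, (∀ c, T G ∅ ∅ c (n c)) ∧ ∑ c, cost (n c) ≤ gam G ∧
      ∑ c, hot (n c) ≤ (Finset.univ.filter fun w => Lonely G w).card := by
  have key : ∀ c : G.ConnectedComponent, ∃ k, T G ∅ ∅ c k ∧ (∀ D', Dom G D' →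
      cost k ≤ (D'.filter fun u => G.connectedComponentMk u = c).card) ∧
      hot k ≤ ((Finset.univ.filter fun w => Lonely G w).filter
        fun u => G.connectedComponentMk u = c).card := by
    intro c
    by_cases hc : ∃ w, G.connectedComponentMk w = c ∧ Lonely G w
    · obtain ⟨w, hw, hwl⟩ := hc
      refine ⟨3, ?_, fun D' hD' => ?_, ?_⟩
      · rw [← hw]
        exact hot_start hG w hwl (hr w hwl)
      · rw [← hw]
        exact one_le hD' w
      · exact Finset.card_pos.2 ⟨w, by simp [hwl, hw]⟩
    · push Not at hc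
      obtain ⟨x, hx⟩ : ∃ x, G.connectedComponentMk x = c := c.exists_rep
      obtain ⟨k, h1, h2⟩ := start hG ∅ c (fun x hx => Finset.notMem_empty _) hc
      match k, h1, h2 with
      | 0, h1, h2 => exact ⟨0, h1, fun D' _ => Nat.zero_le _, Nat.zero_le _⟩
      | 1, h1, h2 => exact ⟨1, h1, fun D' hD' => h2 D' hD', Nat.zero_le _⟩
      | 2, h1, h2 =>
        obtain ⟨ha, P, Q, hd, hcc, hP, hQ, hj⟩ := h1
        refine ⟨2, ⟨P, Q, hd, fun y hy => ⟨(hcc y).2 hy, ha y ((hcc y).2 hy)⟩, hP, hQ,
          fun p hp q hq y hy => ?_⟩, fun D' hD' => h2 D' hD', Nat.zero_le _⟩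
        rcases (hcc y).1 hy with h | h
        · exact Or.inr (Or.inr (hj y h q hq).symm)
        · exact Or.inl (Or.inr (hj p hp y h))
  choose n hn1 hn2 hn3 using key
  refine ⟨n, hn1, ?_, ?_⟩
  · obtain ⟨D', hD'c, hD'⟩ := gam_mem (G := G)
    have h2 := Finset.card_eq_sum_card_fiberwise (f := fun u => G.connectedComponentMk u) (s := D')
      (t := Finset.univ) (fun _ _ => Finset.mem_coe.2 (Finset.mem_univ _))
    rw [← hD'c, h2]
    exact Finset.sum_le_sum fun c _ => hn2 c D' hD'
  · have h2 := Finset.card_eq_sum_card_fiberwise (f := fun u => G.connectedComponentMk u)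
      (s := Finset.univ.filter fun w => Lonely G w)
      (t := Finset.univ) (fun _ _ => Finset.mem_coe.2 (Finset.mem_univ _))
    rw [h2]
    exact Finset.sum_le_sum fun c _ => hn3 c

/-- the exact values if the rests are connected -/
theorem exact (G : SimpleGraph V) (hG : IsCograph G)
    (hr : ∀ w, Lonely G w → RestConnected G w) :
    gMB' G = ((gam G + ((Finset.univ.filter fun w => Lonely G w).card + 1) / 2 : ℕ) : ℕ∞) ∧
    gMB G = ((gam G + (Finset.univ.filter fun w => Lonely G w).card / 2 : ℕ) : ℕ∞) := by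
  have : Fintype G.ConnectedComponent := Fintype.ofFinite _
  obtain ⟨n, h1, h2, h3⟩ := states' hG hr
  constructor
  · unfold gMB'
    rw [sInf_eq_iff (fun k => SWin G k ∅ ∅) _ (fun k hk => bound_S hk)]
    exact strategy' _ _ _ n h1 (by omega)
  · unfold gMB
    rw [sInf_eq_iff (fun k => DWin G k ∅ ∅) _ (fun k hk => bound_D hk)]
    by_cases hD : Dom G ∅
    · exact Or.inl hD
    · right
      have hpos : gam G ≠ 0 := by
        intro h0
        obtain ⟨D', hc, hd⟩ := gam_mem (G := G)
        rw [h0, Finset.card_eq_zero] at hc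
        rw [hc] at hd
        exact hD hd
      obtain ⟨v, n', hv1, hv2, hv3, hv4⟩ := moveD
        (K := gam G + (Finset.univ.filter fun w => Lonely G w).card / 2 - 1) n h1 (by omega) hD
      exact ⟨_, v, by omega, hv1, hv2, strategy' _ _ _ n' hv3 hv4⟩

/-- **Maker-Breaker domination numbers and lonely vertices.** Let `m` be the number of the lonely vertices of a
finite graph `G`. Then `γ_MB(G) ≥ γ(G) + ⌊m / 2⌋` and `γ_MB'(G) ≥ γ(G) + ⌈m / 2⌉`. If `G` is a cograph then
`γ_MB'(G) = γ(G)` if and only if `m = 0`, and `γ_MB(G) = γ(G)` if and only if `m ≤ 1`; and if for every lonely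
vertex the rest of its component is nonempty and connected then `γ_MB(G) = γ(G) + ⌊m / 2⌋` and
`γ_MB'(G) = γ(G) + ⌈m / 2⌉`. -/
theorem result {V : Type} [Fintype V] (G : SimpleGraph V) (m : ℕ)
    (hm : m = (Finset.univ.filter fun v => Lonely G v).card) :
    (((gam G + m / 2 : ℕ) : ℕ∞) ≤ gMB G ∧ ((gam G + (m + 1) / 2 : ℕ) : ℕ∞) ≤ gMB' G) ∧
    (IsCograph G → ((gMB' G = gam G ↔ m = 0) ∧ (gMB G = gam G ↔ m ≤ 1))) ∧
    (IsCograph G → (∀ w, Lonely G w → RestConnected G w) →
      gMB G = ((gam G + m / 2 : ℕ) : ℕ∞) ∧ gMB' G = ((gam G + (m + 1) / 2 : ℕ) : ℕ∞)) := by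
  subst hm
  refine ⟨⟨(bounds G).2, (bounds G).1⟩, fun hG => ?_, fun hG hr => ⟨(exact G hG hr).2, (exact G hG hr).1⟩⟩
  obtain ⟨h1, h2⟩ := equality G hG
  rw [h1, h2]
  constructor
  · rw [Finset.card_eq_zero, Finset.filter_eq_empty_iff]
    exact ⟨fun h v _ => h v, fun h v => h (Finset.mem_univ v)⟩
  · rw [Finset.card_le_one]
    simp only [Finset.mem_filter, Finset.mem_univ, true_and]
    exact ⟨fun h v hv w hw => h v w hv hw, fun h v w hv hw => h v hv w hw⟩

end Pool.Agent.Results.MP_b03ea0_co.MinimalForCographs
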